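import Pool.Agent.MP_75da70_an.H8.FDefs

/-
A separating functional along an ultrafilter of bad points.
-/

namespace Pool.Agent.MP_75da70_an.H8

open Filter Topology Set

variable {T : Type} {le : T → T → Prop} {B : Set T} {N : ℕ}

lemma f2_dB_map {T' : Type} (e : T → T') :
    ∀ c : List T, dB (c.map e) = Finsupp.mapDomain (List.map e) (dB c)
  | [] => by simp [dB]
  | [_] => by simp [dB]
  | x :: y :: l => by
    have ih := f2_dB_map e (y :: l)
    simp only [List.map_cons] at ih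
    simp only [List.map_cons, dB, ih, cone, Finsupp.lmapDomain_apply]
    rw [← Finsupp.lmapDomain_apply ℂ ℂ (List.map e) (_ - _), map_sub, Finsupp.lmapDomain_apply,
      Finsupp.lmapDomain_apply, Finsupp.mapDomain_single, ← Finsupp.mapDomain_comp,
      ← Finsupp.mapDomain_comp]
    rfl

lemma f2_dF_map {T' : Type} (e : T → T') (ζ : FL T) :
    dF (Finsupp.mapDomain (List.map e) ζ) = Finsupp.mapDomain (List.map e) (dF ζ) := by
  induction ζ using Finsupp.induction_linear with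
  | zero => simp
  | add f g hf hg => simp only [Finsupp.mapDomain_add, map_add, hf, hg]
  | single c a =>
    simp only [Finsupp.mapDomain_single, dF, Finsupp.linearCombination_single, f2_dB_map,
      Finsupp.mapDomain_smul]

lemma f2_entries (h : POrd le N) {x : T} :
    ∀ (t : List T) (a : T), IsCh le B (a :: t) → le a x → ∀ y ∈ a :: t, le y x
  | [], a, _, ha => by simpa using ha
  | b :: t, a, hc, ha => by
    intro y hy
    rcases List.mem_cons.1 hy with rfl | hy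
    · exact ha
    · exact f2_entries h t b hc.2 (h.trans _ _ _ hc.1.1 ha) y hy

lemma f2_Sx_mono (h : POrd le N) {k : ℕ} {q x : T} (hq : le q x) :
    Sx le B k q ⊆ Sx le B k x := by
  rintro c ⟨h1, h2, a, t, h3, h4⟩
  exact ⟨h1, h2, a, t, h3, h.trans _ _ _ h4 hq⟩

lemma f2_const {α : Type} (𝒰 : Ultrafilter T) (f : T → α) {s : Set α} (hs : s.Finite)
    (hf : ∀ᶠ x in (𝒰 : Filter T), f x ∈ s) : ∃ a ∈ s, ∀ᶠ x in (𝒰 : Filter T), f x = a := by
  rw [← Ultrafilter.eventually_exists_mem_iff hs]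
  exact hf.mono fun x hx => ⟨_, hx, rfl⟩

lemma f2_below (h : POrd le N) (x : T) : {q | le q x}.Finite ∧ {q | le q x}.ncard ≤ N := by
  have hf : {q | le q x}.Finite := by
    by_contra hi
    obtain ⟨S, hS, hc⟩ := Set.Infinite.exists_subset_card_eq hi (N + 1)
    have := h.ord x S fun y hy => hS hy
    omega
  refine ⟨hf, ?_⟩
  rw [Set.ncard_eq_toFinset_card _ hf]
  exact h.ord x _ fun y hy => by simpa using hy

lemma f2_apply {b : ℕ} {ch : Fin b → List T} (hi : Function.Injective ch) (v : Fin b → ℂ)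
    (c : Fin b) : (∑ c', Finsupp.single (ch c') (v c') : FL T) (ch c) = v c := by
  rw [Finsupp.finsetSum_apply, Finset.sum_eq_single c]
  · simp
  · intro c' _ hc'
    exact Finsupp.single_eq_of_ne (hi.ne hc').symm
  · simp

lemma f2_supp {b : ℕ} {ch : Fin b → List T} (hi : Function.Injective ch) (v : Fin b → ℂ)
    (S : Set (List T)) : (∑ c', Finsupp.single (ch c') (v c') : FL T) ∈ Finsupp.supported ℂ ℂ S ↔
      ∀ c, ch c ∉ S → v c = 0 := by
  constructor
  · intro hv c hc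
    rw [← f2_apply hi v c]
    exact (Finsupp.mem_supported' ℂ _).1 hv _ hc
  · intro hv
    refine Submodule.sum_mem _ fun c _ => ?_
    by_cases hc : ch c ∈ S
    · exact Finsupp.single_mem_supported ℂ _ hc
    · simp [hv c hc]

/-- the combinatorial type of the fibre at `x`. -/
structure F2Chart (le : T → T → Prop) (B : Set T) (k : ℕ) (x : T) {m b : ℕ} (e : Fin m → T)
    (ch : Fin b → List T) (Z : Submodule ℂ (Fin b → ℂ)) (P Q : Fin m → Fin b → Prop) : Prop where
  inj : Function.Injective ch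
  rng : range ch = Sx le B k x
  pts : range e = {q | le q x}
  cyc : ∀ v : Fin b → ℂ, ∑ c, Finsupp.single (ch c) (v c) ∈ Zf le B k x ↔ v ∈ Z
  sx : ∀ a c, ch c ∈ Sx le B k (e a) ↔ P a c
  so : ∀ a c, ch c ∈ So le B k (e a) ↔ Q a c

lemma f2_chart (h : POrd le N) (B : Set T) (k : ℕ) (𝒰 : Ultrafilter T) :
    ∃ (m b : ℕ) (e : T → Fin m → T) (ch : T → Fin b → List T) (Z : Submodule ℂ (Fin b → ℂ))
      (P Q : Fin m → Fin b → Prop),
      ∀ᶠ x in (𝒰 : Filter T), F2Chart le B k x (e x) (ch x) Z P Q := by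
  classical
  obtain ⟨m, -, hm⟩ := f2_const 𝒰 (fun x => {q | le q x}.ncard) (Set.finite_Iic N)
    (Eventually.of_forall fun x => (f2_below h x).2)
  have he : ∀ x, ∃ e : Fin m → T, {q | le q x}.ncard = m →
      Function.Injective e ∧ range e = {q | le q x} := by
    intro x
    by_cases hx : {q | le q x}.ncard = m
    · obtain ⟨n, f, hf, hr⟩ := (f2_below h x).1.fin_param
      have : n = m := by
        rw [← hx, ← hr, Set.ncard_range_of_injective hf]
        simp
      subst this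
      exact ⟨f, fun _ => ⟨hf, hr⟩⟩
    · exact ⟨fun _ => x, fun h' => absurd h' hx⟩
  choose e he using he
  have hfin := List.finite_length_eq (Fin m) (k + 1)
  obtain ⟨S₀, hS₀, hS⟩ := f2_const 𝒰 (fun x => {c : List (Fin m) | c.map (e x) ∈ Sx le B k x})
    hfin.finite_subsets (Eventually.of_forall fun x c hc => by simpa using hc.2.1)
  obtain ⟨b, en, hen, hr⟩ := (hfin.subset hS₀).fin_param
  obtain ⟨P, -, hP⟩ := f2_const 𝒰
    (fun x (a : Fin m) (c : Fin b) => (en c).map (e x) ∈ Sx le B k (e x a)) Set.finite_univ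
    (Eventually.of_forall fun _ => trivial)
  obtain ⟨Q, -, hQ⟩ := f2_const 𝒰
    (fun x (a : Fin m) (c : Fin b) => (en c).map (e x) ∈ So le B k (e x a)) Set.finite_univ
    (Eventually.of_forall fun _ => trivial)
  obtain ⟨R, -, hR⟩ := f2_const 𝒰
    (fun x (c : Fin b) => (en c).map (e x) ∈ So le B k x) Set.finite_univ
    (Eventually.of_forall fun _ => trivial)
  let Z : Submodule ℂ (Fin b → ℂ) :=
    { carrier := {v | (∀ c, ¬R c → v c = 0) ∧ dF (∑ c, Finsupp.single (en c) (v c)) = 0}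
      add_mem' := by
        rintro v v' ⟨h1, h2⟩ ⟨h3, h4⟩
        refine ⟨fun c hc => by simp [h1 c hc, h3 c hc], ?_⟩
        simp only [Pi.add_apply, Finsupp.single_add, Finset.sum_add_distrib, map_add, h2, h4,
          add_zero]
      zero_mem' := ⟨fun _ _ => rfl, by simp⟩
      smul_mem' := by
        rintro r v ⟨h1, h2⟩
        refine ⟨fun c hc => by simp [h1 c hc], ?_⟩
        simp only [Pi.smul_apply, ← Finsupp.smul_single, ← Finset.smul_sum, map_smul, h2,
          smul_zero] }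
  refine ⟨m, b, e, fun x c => (en c).map (e x), Z, P, Q, ?_⟩
  filter_upwards [hm, hS, hP, hQ, hR] with x hm hS hP hQ hR
  obtain ⟨hi, hx⟩ := he x hm
  have hl : Function.Injective (List.map (e x)) := List.map_injective_iff.2 hi
  have hj : Function.Injective fun c => (en c).map (e x) := hl.comp hen
  refine ⟨hj, ?_, hx, fun v => ?_, fun a c => by rw [← hP], fun a c => by rw [← hQ]⟩
  · ext c
    constructor
    · rintro ⟨c', rfl⟩
      have : en c' ∈ S₀ := hr ▸ mem_range_self c'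
      rw [← hS] at this
      exact this
    · intro hc
      have : c ∈ range (List.map (e x)) := by
        rw [Set.range_list_map, hx]
        obtain ⟨h1, -, a, t, rfl, h4⟩ := hc
        exact f2_entries h t a h1 h4
      obtain ⟨c₀, rfl⟩ := this
      have : c₀ ∈ range en := by rw [hr, ← hS]; exact hc
      obtain ⟨c', rfl⟩ := this
      exact ⟨c', rfl⟩
  · have h1 : (∑ c, Finsupp.single ((en c).map (e x)) (v c) : FL T)
        = Finsupp.mapDomain (List.map (e x)) (∑ c, Finsupp.single (en c) (v c)) := by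
      rw [Finsupp.mapDomain_finsetSum]
      simp only [Finsupp.mapDomain_single]
    rw [Zf, Submodule.mem_inf, f2_supp hj, LinearMap.mem_ker, h1, f2_dF_map]
    refine and_congr (by rw [← hR]) ?_
    rw [← (Finsupp.mapDomain_injective hl).eq_iff, Finsupp.mapDomain_zero]

lemma f2_good (h : POrd le N) {k : ℕ} {x : T} {m b : ℕ} {e : Fin m → T} {ch : Fin b → List T}
    {Z : Submodule ℂ (Fin b → ℂ)} {P Q : Fin m → Fin b → Prop} (H : F2Chart le B k x e ch Z P Q)
    (K₀ : Set (Fin m)) (K : Set T) (hK : ∀ q ∈ K, ∃ a ∈ K₀, e a = q) (L : Fin b → Fin b → ℂ)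
    (h1 : ∀ c, L c ∈ Z) (h2 : ∀ a ∈ K₀, ∀ c c', P a c → ¬Q a c' → L c c' = 0)
    (h3 : ∀ v ∈ Z, ∀ c', ∑ c, v c * L c c' = v c') : ∃ ℓ, Good le B k x K ℓ := by
  let ℓ : List T → FL T :=
    Function.extend ch (fun c => ∑ c', Finsupp.single (ch c') (L c c')) 0
  have hℓ : ∀ c, ℓ (ch c) = ∑ c', Finsupp.single (ch c') (L c c') := fun c =>
    H.inj.extend_apply _ _ c
  refine ⟨ℓ, ?_, ?_, ?_⟩
  · intro c hc
    rw [← H.rng] at hc
    obtain ⟨c, rfl⟩ := hc
    rw [hℓ, H.cyc]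
    exact h1 c
  · intro ζ hζ
    have hz : ζ = ∑ c, Finsupp.single (ch c) (ζ (ch c)) := by
      ext d
      by_cases hd : d ∈ range ch
      · obtain ⟨c, rfl⟩ := hd
        rw [f2_apply H.inj]
      · rw [(Finsupp.mem_supported' ℂ _).1 ((f2_supp H.inj _ (range ch)).2
          fun c hc => absurd (mem_range_self c) hc) d hd]
        refine (Finsupp.mem_supported' ℂ _).1 hζ.1 d fun h' => hd ?_
        rw [H.rng]
        exact h'.1
    have hv : (fun c => ζ (ch c)) ∈ Z := by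
      rw [← H.cyc, ← hz]
      exact hζ
    have := h3 _ hv
    rw [hz, map_sum]
    simp only [Finsupp.linearCombination_single, hℓ, Finset.smul_sum, Finsupp.smul_single,
      smul_eq_mul]
    rw [Finset.sum_comm]
    refine Finset.sum_congr rfl fun c' _ => ?_
    rw [← Finsupp.single_finsetSum, this]
  · intro q hq c hc
    obtain ⟨a, ha, rfl⟩ := hK q hq
    have hle : le (e a) x := by
      have := mem_range_self (f := e) a
      rw [H.pts] at this
      exact this
    have hc' := f2_Sx_mono h hle hc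
    rw [← H.rng] at hc'
    obtain ⟨c, rfl⟩ := hc'
    rw [hℓ, f2_supp H.inj]
    intro c' hc'
    exact h2 a ha c c' ((H.sx a c).1 hc) fun hq => hc' ((H.so a c').2 hq)

lemma f2_sep {b : ℕ} (Z : Submodule ℂ (Fin b → ℂ)) (𝓛 : Submodule ℂ (Fin b → Fin b → ℂ))
    (hno : ∀ L ∈ 𝓛, ¬∀ v ∈ Z, ∀ c', ∑ c, v c * L c c' = v c') :
    ∃ (a : ℕ) (ζ w : Fin a → Fin b → ℂ), (∀ t, ζ t ∈ Z) ∧ ∑ t, ∑ c, w t c * ζ t c = 1 ∧
      ∀ L ∈ 𝓛, ∑ t, ∑ c, ∑ c', w t c' * ζ t c * L c c' = 0 := by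
  classical
  obtain ⟨a, ζ, hζ⟩ := (Submodule.fg_iff_exists_fin_generating_family).1
    (IsNoetherian.noetherian Z)
  let Φ : (Fin b → Fin b → ℂ) →ₗ[ℂ] (Fin a × Fin b → ℂ) :=
    { toFun := fun L p => ∑ c, ζ p.1 c * L c p.2
      map_add' := fun L L' => by
        ext p
        simp [mul_add, Finset.sum_add_distrib]
      map_smul' := fun r L => by
        ext p
        simp [Finset.mul_sum, mul_left_comm] }
  have hx : (fun p : Fin a × Fin b => ζ p.1 p.2) ∉ 𝓛.map Φ := by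
    rintro ⟨L, hL, hΦ⟩
    refine hno L hL fun v hv => ?_
    rw [← hζ] at hv
    induction hv using Submodule.span_induction with
    | mem v hv =>
      obtain ⟨t, rfl⟩ := hv
      exact fun c' => congrFun hΦ (t, c')
    | zero => simp
    | add v v' _ _ h1 h2 =>
      intro c'
      simp only [Pi.add_apply, add_mul, Finset.sum_add_distrib, h1 c', h2 c']
    | smul r v _ h1 =>
      intro c'
      simp only [Pi.smul_apply, smul_eq_mul, mul_assoc, ← Finset.mul_sum, h1 c']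
  obtain ⟨f, hf, hf0⟩ := Submodule.exists_dual_map_eq_bot_of_notMem hx inferInstance
  set s := f fun p : Fin a × Fin b => ζ p.1 p.2 with hs
  have hf' : ∀ u : Fin a × Fin b → ℂ,
      ∑ t, ∑ c, s⁻¹ * f (fun j => if (t, c) = j then 1 else 0) * u (t, c) = s⁻¹ * f u := by
    intro u
    rw [LinearMap.pi_apply_eq_sum_univ f u, Fintype.sum_prod_type, Finset.mul_sum]
    refine Finset.sum_congr rfl fun t _ => ?_
    rw [Finset.mul_sum]
    refine Finset.sum_congr rfl fun c _ => ?_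
    rw [smul_eq_mul]
    ring
  refine ⟨a, ζ, fun t c => s⁻¹ * f (fun j => if (t, c) = j then 1 else 0),
    fun t => hζ ▸ Submodule.subset_span (mem_range_self t), ?_, fun L hL => ?_⟩
  · rw [hf' fun p => ζ p.1 p.2, ← hs, inv_mul_cancel₀ hf]
  · have h0 : f (Φ L) = 0 := by
      have : f (Φ L) ∈ (𝓛.map Φ).map f :=
        Submodule.mem_map_of_mem (Submodule.mem_map_of_mem hL)
      rwa [hf0, Submodule.mem_bot] at this
    have := hf' (Φ L)
    rw [h0, mul_zero] at this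
    refine Eq.trans (Finset.sum_congr rfl fun t _ => ?_) this
    rw [Finset.sum_comm]
    refine Finset.sum_congr rfl fun c' _ => ?_
    change _ = _ * ∑ c, ζ t c * L c c'
    rw [Finset.mul_sum]
    refine Finset.sum_congr rfl fun c _ => ?_
    ring

theorem bad_weights (h : POrd le N) (B : Set T) (k : ℕ) (𝒩 : T → Filter T)
    (hbad : ∀ W : T → Set T, (∀ q, W q ∈ 𝒩 q) →
      ∃ x, ¬ ∃ ℓ, Good le B k x {q | le q x ∧ x ∈ W q} ℓ) :
    ∃ (𝒰 : Ultrafilter T) (a b : ℕ) (ch : T → Fin b → List T) (ζ w : Fin a → Fin b → ℂ),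
      (∀ᶠ x in (𝒰 : Filter T), Function.Injective (ch x) ∧ range (ch x) = Sx le B k x ∧
        ∀ t, ∑ c, Finsupp.single (ch x c) (ζ t c) ∈ Zf le B k x) ∧
      ∑ t, ∑ c, w t c * ζ t c = 1 ∧
      ∀ (Λ : T → Fin b → Fin b → ℂ) (M : ℝ), (∀ x c c', ‖Λ x c c'‖ ≤ M) →
        (∀ᶠ x in (𝒰 : Filter T), ∀ c, ∑ c', Finsupp.single (ch x c') (Λ x c c') ∈ Zf le B k x) →
        (∀ η : ℝ, 0 < η → ∃ W : T → Set T, (∀ q, W q ∈ 𝒩 q) ∧ ∀ᶠ x in (𝒰 : Filter T),
          ∀ q, le q x → x ∈ W q → ∀ c c', ch x c ∈ Sx le B k q → ch x c' ∉ So le B k q →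
            ‖Λ x c c'‖ ≤ η) →
        Tendsto (fun x => ∑ t, ∑ c, ∑ c', w t c' * ζ t c * Λ x c c') 𝒰 (𝓝 0) := by
  classical
  let Bad : (T → Set T) → Set T := fun W =>
    {x | ¬ ∃ ℓ, Good le B k x {q | le q x ∧ x ∈ W q} ℓ}
  have hmono : ∀ W W' : T → Set T, (∀ q, W q ⊆ W' q) → Bad W ⊆ Bad W' := by
    rintro W W' hW x hx ⟨ℓ, hℓ⟩
    exact hx ⟨ℓ, hℓ.mem, hℓ.ret, fun q hq => hℓ.cpt q ⟨hq.1, hW q hq.2⟩⟩
  let I := {W : T → Set T // ∀ q, W q ∈ 𝒩 q}
  have : Nonempty I := ⟨⟨fun _ => univ, fun _ => univ_mem⟩⟩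
  have : NeBot (⨅ W : I, 𝓟 (Bad W.1)) := by
    refine iInf_neBot_of_directed' (fun W W' => ?_) fun W => principal_neBot_iff.2 (hbad W.1 W.2)
    refine ⟨⟨fun q => W.1 q ∩ W'.1 q, fun q => inter_mem (W.2 q) (W'.2 q)⟩, ?_, ?_⟩
    · exact principal_mono.2 (hmono _ _ fun q => inter_subset_left)
    · exact principal_mono.2 (hmono _ _ fun q => inter_subset_right)
  let 𝒰 := Ultrafilter.of (⨅ W : I, 𝓟 (Bad W.1))
  have h𝒰 : ∀ W : T → Set T, (∀ q, W q ∈ 𝒩 q) → ∀ᶠ x in (𝒰 : Filter T), x ∈ Bad W :=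
    fun W hW => Ultrafilter.of_le _ (mem_iInf_of_mem (⟨W, hW⟩ : I) (mem_principal_self _))
  obtain ⟨m, b, e, ch, Z, P, Q, hch⟩ := f2_chart h B k 𝒰
  let K₀ : Set (Fin m) :=
    {a | ∀ W : T → Set T, (∀ q, W q ∈ 𝒩 q) → ∀ᶠ x in (𝒰 : Filter T), x ∈ W (e x a)}
  let 𝓛 : Submodule ℂ (Fin b → Fin b → ℂ) :=
    { carrier := {L | (∀ c, L c ∈ Z) ∧ ∀ a ∈ K₀, ∀ c c', P a c → ¬Q a c' → L c c' = 0}
      add_mem' := by
        rintro L L' ⟨h1, h2⟩ ⟨h3, h4⟩
        exact ⟨fun c => Z.add_mem (h1 c) (h3 c), fun a ha c c' hp hq => by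
          simp [h2 a ha c c' hp hq, h4 a ha c c' hp hq]⟩
      zero_mem' := ⟨fun _ => Z.zero_mem, fun _ _ _ _ _ _ => rfl⟩
      smul_mem' := by
        rintro r L ⟨h1, h2⟩
        exact ⟨fun c => Z.smul_mem r (h1 c), fun a ha c c' hp hq => by
          simp [h2 a ha c c' hp hq]⟩ }
  have hno : ∀ L ∈ 𝓛, ¬∀ v ∈ Z, ∀ c', ∑ c, v c * L c c' = v c' := by
    rintro L ⟨h1, h2⟩ h3
    have hW : ∀ a : Fin m, ∃ W : T → Set T, (∀ q, W q ∈ 𝒩 q) ∧
        (a ∉ K₀ → ∀ᶠ x in (𝒰 : Filter T), x ∉ W (e x a)) := by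
      intro a
      by_cases ha : a ∈ K₀
      · exact ⟨fun _ => univ, fun _ => univ_mem, fun h' => absurd ha h'⟩
      · simp only [K₀, mem_ofPred_eq, not_forall] at ha
        obtain ⟨W, hW, hx⟩ := ha
        exact ⟨W, hW, fun _ => Ultrafilter.eventually_not.2 hx⟩
    choose W hW hW' using hW
    have e1 := h𝒰 (fun q => ⋂ a, W a q) fun q => iInter_mem.2 fun a => hW a q
    have e2 : ∀ᶠ x in (𝒰 : Filter T), ∀ a, a ∉ K₀ → x ∉ W a (e x a) := by
      refine eventually_all.2 fun a => ?_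
      by_cases ha : a ∈ K₀
      · exact Eventually.of_forall fun _ h' => absurd ha h'
      · exact (hW' a ha).mono fun _ hx _ => hx
    obtain ⟨x, hx1, hx2, hx3⟩ := (e1.and (e2.and hch)).exists
    refine hx1 (f2_good h hx3 K₀ _ ?_ L h1 h2 h3)
    rintro q ⟨hq1, hq2⟩
    have : q ∈ range (e x) := by rw [hx3.pts]; exact hq1
    obtain ⟨a, rfl⟩ := this
    refine ⟨a, ?_, rfl⟩
    by_contra ha
    exact hx2 a ha (mem_iInter.1 hq2 a)
  obtain ⟨a, ζ, w, hζ, hw, hL⟩ := f2_sep Z 𝓛 hno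
  refine ⟨𝒰, a, b, ch, ζ, w, hch.mono fun x hx => ⟨hx.inj, hx.rng, fun t => (hx.cyc _).2 (hζ t)⟩,
    hw, fun Λ M hM hZ hη => ?_⟩
  have hlim : ∀ c c', ∃ z : ℂ, Tendsto (fun x => Λ x c c') 𝒰 (𝓝 z) := by
    intro c c'
    obtain ⟨z, -, hz⟩ := (isCompact_closedBall (0 : ℂ) M).ultrafilter_le_nhds
      (𝒰.map fun x => Λ x c c') (by
        rw [le_principal_iff]
        exact mem_map.2 (Eventually.of_forall fun x => mem_closedBall_zero_iff.2 (hM x c c')))
    exact ⟨z, hz⟩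
  choose L hlim using hlim
  have hmem : L ∈ 𝓛 := by
    refine ⟨fun c => ?_, fun a ha c c' hp hq => ?_⟩
    · refine Z.closed_of_finiteDimensional.mem_of_tendsto (tendsto_pi_nhds.2 (hlim c)) ?_
      filter_upwards [hZ, hch] with x h1 h2
      exact (h2.cyc _).1 (h1 c)
    · rw [← norm_le_zero_iff]
      refine le_of_forall_pos_le_add fun η h0 => ?_
      obtain ⟨W, hW, hx⟩ := hη η h0
      rw [zero_add]
      refine le_of_tendsto (hlim c c').norm ?_
      filter_upwards [hx, hch, ha W hW] with x h1 h2 h3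
      have hle : le (e x a) x := by
        have := mem_range_self (f := e x) a
        rw [h2.pts] at this
        exact this
      exact h1 _ hle h3 c c' ((h2.sx a c).2 hp) fun h' => hq ((h2.so a c').1 h')
  rw [← hL L hmem]
  refine tendsto_finsetSum _ fun t _ => tendsto_finsetSum _ fun c _ =>
    tendsto_finsetSum _ fun c' _ => (hlim c c').const_mul _

end Pool.Agent.MP_75da70_an.H8
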